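import Mathlib
import Pool.Agent.X34.E.E20

set_option autoImplicit false

/-!
# Primes followed by a bounded gap in short windows, a positive proportion of the windows
-/

open Finset Filter

namespace Pool.Agent.L5helper4.G2

open Pool.Agent.H95R2.BG.LF
open Pool.Agent.X34.E

open Classical in
/-- a positive proportion of the windows `(m, m + m ^ θ)` contain many primes followed by one and the same gap -/
theorem windows (hE : Eng) (θ : ℝ) (hθ : 0 < θ) (hθ1 : θ ≤ 1) (M a : ℕ) (hM0 : 0 < M) (ha : a.Coprime M)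
    (G : Finset ℕ) (hG : G.card = 45)
    (hadm : ∀ p : ℕ, p.Prime → ¬ p ∣ M → ∃ r : ℕ, ∀ g ∈ G, ¬ p ∣ r + g) :
    ∃ c : ℝ, 0 < c ∧ ∀ᶠ Z : ℕ in atTop, ∃ g ∈ G, ∃ g' ∈ G, g < g' ∧ c * Z ≤
      (Set.ncard {m : ℕ | Z ≤ 2 * m ∧ m < 3 * Z ∧ c * (m : ℝ) ^ θ / Real.log m ^ 45 ≤
        (Set.ncard {p : ℕ | m < p ∧ ((p + (g' - g) * M : ℕ) : ℝ) < m + (m : ℝ) ^ θ ∧
          Follow M a ((g' - g) * M) p} : ℝ)} : ℝ) := by
  obtain ⟨κ, hκ, hgr⟩ := gaps_rough hE
  obtain ⟨c₀, hc₀, hlow⟩ := hgr M a hM0 ha G hG hadm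
  obtain ⟨C, hC, hup⟩ := rough_upper (K := 45) (by norm_num) _ _ (adm_G M hM0 G hG hadm) κ (θ / 2) hκ
    (by positivity) (by linarith)
  obtain ⟨L, hL⟩ : ∃ L : ℕ, ∀ g ∈ G, g ≤ L :=
    ⟨G.sup id, fun g hg => Finset.le_sup (f := id) hg⟩
  have hlow' : ∀ᶠ Z : ℕ in atTop, _ := tendsto_natCast_atTop_atTop.eventually hlow
  have hpw : Tendsto (fun Z : ℕ => (Z : ℝ) ^ (θ / 2)) atTop atTop :=
    (tendsto_rpow_atTop (by positivity)).comp tendsto_natCast_atTop_atTop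
  have hlogN : Tendsto (fun N : ℕ => Real.log (N : ℝ)) atTop atTop :=
    Real.tendsto_log_atTop.comp tendsto_natCast_atTop_atTop
  obtain ⟨c, hc⟩ : ∃ c : ℝ, c = min (c₀ / (2 ^ 53)) (c₀ / (4 * C)) := ⟨_, rfl⟩
  have hc0 : 0 < c := by rw [hc]; exact lt_min (by positivity) (by positivity)
  refine ⟨c, hc0, ?_⟩
  filter_upwards [hlow', hup, hlogN.eventually_ge_atTop 4, hpw.eventually_ge_atTop (16 * (2 * (L * M) + 2)),
    eventually_ge_atTop 16] with Z h1 h2 h3 h4 h5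
  obtain ⟨g, hg, g', hg', hgg, h1⟩ := h1
  refine ⟨g, hg, g', hg', hgg, ?_⟩
  obtain ⟨h, hh⟩ : ∃ h : ℕ, h = (g' - g) * M := ⟨_, rfl⟩
  rw [← hh] at h1 ⊢
  have hhL : h ≤ L * M := by
    rw [hh]
    exact Nat.mul_le_mul_right _ ((Nat.sub_le _ _).trans (hL g' hg'))
  have hMg : M * g ≤ L * M := by
    rw [mul_comm]
    exact Nat.mul_le_mul_right _ (hL g hg)
  have hZr : (16 : ℝ) ≤ Z := by exact_mod_cast h5
  have hZ0 : (0 : ℝ) < Z := by linarith
  have hlZ : 0 < Real.log (Z : ℝ) := by linarith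
  -- the length
  obtain ⟨P, hP⟩ : ∃ P : ℝ, P = (Z : ℝ) ^ θ := ⟨_, rfl⟩
  have hPP : P = (Z : ℝ) ^ (θ / 2) * (Z : ℝ) ^ (θ / 2) := by
    rw [hP, ← Real.rpow_add hZ0]
    congr 1
    ring
  have hLM0 : (0 : ℝ) ≤ L * M := by positivity
  have hq1 : 32 ≤ (Z : ℝ) ^ (θ / 2) := by linarith
  have hP1 : 16 * (2 * (L * M) + 2) ≤ P := by
    rw [hPP]
    nlinarith
  have hPZ : P ≤ Z := by
    rw [hP]
    calc (Z : ℝ) ^ θ ≤ (Z : ℝ) ^ (1 : ℝ) := Real.rpow_le_rpow_of_exponent_le (by linarith) hθ1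
      _ = Z := Real.rpow_one _
  have hP0 : 0 < P := by linarith
  obtain ⟨H, hH⟩ : ∃ H : ℕ, H = ⌊P / 4⌋₊ := ⟨_, rfl⟩
  have hH1 : (H : ℝ) ≤ P / 4 := by rw [hH]; exact Nat.floor_le (by linarith)
  have hH2 : P / 4 < H + 1 := by rw [hH]; exact Nat.lt_floor_add_one _
  have hHlow : ((Z : ℕ) : ℝ) ^ (θ / 2) ≤ H := by
    rw [hPP] at hH2
    nlinarith
  have hH8 : P / 8 ≤ H := by linarith
  have hHZ4 : (H : ℝ) ≤ Z / 4 := by linarith
  have hHZ : 4 * H ≤ Z := by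
    have : (4 : ℝ) * H ≤ Z := by linarith
    exact_mod_cast this
  have hH0 : (0 : ℝ) < H := by linarith
  -- the sets
  obtain ⟨T, hT⟩ : ∃ T : Finset ℕ, T = (range (3 * Z)).filter (fun n => Z < n ∧ n + M * g + h < 3 * Z ∧
    Follow M a h (n + M * g) ∧ ∀ g'' ∈ G, ∀ p : ℕ, p.Prime → (p : ℝ) ≤ (Z : ℝ) ^ κ → ¬ p ∣ n + M * g'') := ⟨_, rfl⟩
  have hTset : {n : ℕ | ((Z : ℕ) : ℝ) < n ∧ ((n + M * g + h : ℕ) : ℝ) < 3 * ((Z : ℕ) : ℝ) ∧
      Follow M a h (n + M * g) ∧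
      ∀ g'' ∈ G, ∀ p : ℕ, p.Prime → (p : ℝ) ≤ ((Z : ℕ) : ℝ) ^ κ → ¬ p ∣ n + M * g''} = (T : Set ℕ) := by
    ext n
    rw [Set.mem_ofPred_eq, hT, mem_coe, mem_filter, mem_range]
    constructor
    · rintro ⟨a1, a2, a3, a4⟩
      have a1' : Z < n := by exact_mod_cast a1
      have a2' : n + M * g + h < 3 * Z := by exact_mod_cast a2
      exact ⟨by omega, a1', a2', a3, a4⟩
    · rintro ⟨a0, a1, a2, a3, a4⟩
      exact ⟨by exact_mod_cast a1, by exact_mod_cast a2, a3, a4⟩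
  have hTc : c₀ * Z / Real.log Z ^ 45 ≤ (T.card : ℝ) := by
    rw [← Set.ncard_coe_finset, ← hTset]
    exact h1
  obtain ⟨f, hf⟩ : ∃ f : ℕ → ℕ, f = fun m => (T.filter (fun n => m < n ∧ n ≤ m + H)).card := ⟨_, rfl⟩
  obtain ⟨I, hI⟩ : ∃ I : Finset ℕ, I = (Ico 0 (3 * Z)).filter (fun m => Z ≤ 2 * m) := ⟨_, rfl⟩
  have hIc : (I.card : ℝ) ≤ 3 * Z := by
    have : I.card ≤ 3 * Z := by
      rw [hI]
      refine (card_filter_le _ _).trans ?_
      rw [Nat.card_Ico]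
      omega
    exact_mod_cast this
  have hsum : (H * T.card : ℕ) ≤ ∑ m ∈ I, f m := by
    have e1 : ∑ m ∈ I, f m = ∑ n ∈ T, (I.filter (fun m => m < n ∧ n ≤ m + H)).card := by
      rw [hf]
      simp only [Finset.card_filter]
      rw [Finset.sum_comm]
    rw [e1]
    calc H * T.card = ∑ n ∈ T, H := by rw [Finset.sum_const, smul_eq_mul, mul_comm]
      _ ≤ _ := by
        apply Finset.sum_le_sum
        intro n hn
        rw [hT, mem_filter, mem_range] at hn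
        have e2 : (Ico (n - H) n) ⊆ I.filter (fun m => m < n ∧ n ≤ m + H) := by
          intro m hm
          rw [mem_Ico] at hm
          rw [mem_filter, hI, mem_filter, mem_Ico]
          refine ⟨⟨⟨by omega, by omega⟩, by omega⟩, by omega, by omega⟩
        calc H = (Ico (n - H) n).card := by rw [Nat.card_Ico]; omega
          _ ≤ _ := card_le_card e2
  have hfup : ∀ m ∈ I, (f m : ℝ) ≤ C * (H / Real.log Z ^ 45) := by
    intro m hm
    rw [hI, mem_filter, mem_Ico] at hm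
    refine le_trans ?_ (h2 m H hHlow (by omega) (by omega))
    have e1 : f m ≤ ((Ioc m (m + H)).filter (fun n => RoughL κ Z (fun _ : Fin 45 => 1)
        (fun i => M * G.orderEmbOfFin hG i) n)).card := by
      rw [hf]
      apply card_le_card
      intro n hn
      rw [mem_filter, hT, mem_filter] at hn
      rw [mem_filter, mem_Ioc]
      exact ⟨hn.2, rough_G M G hG κ Z n hn.1.2.2.2.2⟩
    exact_mod_cast e1
  obtain ⟨t, ht⟩ : ∃ t : ℝ, t = c₀ * H / (8 * Real.log Z ^ 45) := ⟨_, rfl⟩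
  have hlp : 0 < Real.log (Z : ℝ) ^ 45 := by positivity
  obtain ⟨S, hS⟩ : ∃ S : ℝ, S = c₀ * Z / Real.log Z ^ 45 * H := ⟨_, rfl⟩
  have hmany := many_large I f S (C * (H / Real.log Z ^ 45)) t (by
      rw [hS]
      have e1 : ((H * T.card : ℕ) : ℝ) ≤ ((∑ m ∈ I, f m : ℕ) : ℝ) := by exact_mod_cast hsum
      push_cast at e1
      calc c₀ * Z / Real.log Z ^ 45 * H ≤ T.card * H := mul_le_mul_of_nonneg_right hTc hH0.le
        _ = H * T.card := by ring
        _ ≤ _ := e1) hfup (by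
      calc (I.card : ℝ) * t ≤ 3 * Z * t := mul_le_mul_of_nonneg_right hIc (by rw [ht]; positivity)
        _ ≤ S / 2 := by
          rw [ht, hS]
          have e1 : 3 * (Z : ℝ) * (c₀ * H / (8 * Real.log Z ^ 45)) =
              3 / 8 * (c₀ * Z / Real.log Z ^ 45 * H) := by
            field_simp
          have e2 : 0 ≤ c₀ * Z / Real.log Z ^ 45 * H := by positivity
          rw [e1]
          linarith) (by rw [ht]; positivity)
  have hcount : c₀ / (2 * C) * Z ≤ ((I.filter (fun i => t ≤ (f i : ℝ))).card : ℝ) := by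
    rw [hS] at hmany
    have e1 : c₀ * Z / Real.log Z ^ 45 * H / 2 = (C * (H / Real.log Z ^ 45)) * (c₀ / (2 * C) * Z) := by
      field_simp
    rw [e1] at hmany
    exact le_of_mul_le_mul_left hmany (by positivity)
  have hfin : {m : ℕ | Z ≤ 2 * m ∧ m < 3 * Z ∧ c * (m : ℝ) ^ θ / Real.log m ^ 45 ≤
        (Set.ncard {p : ℕ | m < p ∧ ((p + h : ℕ) : ℝ) < m + (m : ℝ) ^ θ ∧
          Follow M a h p} : ℝ)}.Finite :=
    (Set.finite_Iio (3 * Z)).subset fun m hm => hm.2.1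
  have hsub : ((I.filter (fun i => t ≤ (f i : ℝ)) : Finset ℕ) : Set ℕ) ⊆
      {m : ℕ | Z ≤ 2 * m ∧ m < 3 * Z ∧ c * (m : ℝ) ^ θ / Real.log m ^ 45 ≤
        (Set.ncard {p : ℕ | m < p ∧ ((p + h : ℕ) : ℝ) < m + (m : ℝ) ^ θ ∧
          Follow M a h p} : ℝ)} := by
    intro m hm
    rw [mem_coe, mem_filter, hI, mem_filter, mem_Ico] at hm
    obtain ⟨⟨⟨_, hm1⟩, hm2⟩, hm3⟩ := hm
    refine ⟨hm2, hm1, ?_⟩
    have hmZ : (Z : ℝ) / 2 ≤ m := by
      have : (Z : ℝ) ≤ 2 * m := by exact_mod_cast hm2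
      linarith
    have hm3Z : (m : ℝ) ≤ 3 * Z := by exact_mod_cast hm1.le
    have hm0 : (0 : ℝ) < m := by linarith
    have hmθ : P / 2 ≤ (m : ℝ) ^ θ := by
      calc P / 2 ≤ P * (1 / 2 : ℝ) ^ θ := by
            have e1 : (1 / 2 : ℝ) ^ (1 : ℝ) ≤ (1 / 2 : ℝ) ^ θ :=
              Real.rpow_le_rpow_of_exponent_ge (by norm_num) (by norm_num) hθ1
            rw [Real.rpow_one] at e1
            have e2 : 0 ≤ P := by linarith
            nlinarith
        _ = (Z / 2 : ℝ) ^ θ := by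
            rw [hP, ← Real.mul_rpow hZ0.le (by norm_num)]
            congr 1
            ring
        _ ≤ (m : ℝ) ^ θ := Real.rpow_le_rpow (by positivity) hmZ hθ.le
    have hmθ2 : (m : ℝ) ^ θ ≤ 3 * P := by
      calc (m : ℝ) ^ θ ≤ (3 * Z : ℝ) ^ θ := Real.rpow_le_rpow hm0.le hm3Z hθ.le
        _ = 3 ^ θ * P := by rw [Real.mul_rpow (by norm_num) hZ0.le, hP]
        _ ≤ 3 * P := by
            apply mul_le_mul_of_nonneg_right _ (by linarith)
            calc (3 : ℝ) ^ θ ≤ 3 ^ (1 : ℝ) := Real.rpow_le_rpow_of_exponent_le (by norm_num) hθ1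
              _ = 3 := Real.rpow_one _
    have hlogm : Real.log Z / 2 ≤ Real.log m := by
      have e1 : Real.log ((Z : ℝ) / 2) ≤ Real.log m := Real.log_le_log (by positivity) hmZ
      rw [Real.log_div hZ0.ne' (by norm_num)] at e1
      have e2 : Real.log 2 ≤ 1 := by
        have := Real.log_two_lt_d9
        linarith
      linarith
    have hlogm0 : 0 < Real.log (m : ℝ) := by linarith
    have hpowlog : Real.log (Z : ℝ) ^ 45 ≤ 2 ^ 45 * Real.log m ^ 45 := by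
      rw [← mul_pow]
      exact pow_le_pow_left₀ hlZ.le (by linarith) 45
    -- the comparison of the thresholds
    have hthr : c * (m : ℝ) ^ θ / Real.log m ^ 45 ≤ t := by
      rw [ht, div_le_div_iff₀ (by positivity) (by positivity)]
      have e1 : c ≤ c₀ / 2 ^ 53 := by rw [hc]; exact min_le_left _ _
      calc c * (m : ℝ) ^ θ * (8 * Real.log Z ^ 45)
          ≤ (c₀ / 2 ^ 53) * (3 * P) * (8 * (2 ^ 45 * Real.log m ^ 45)) := by gcongr
        _ = c₀ * (3 * P / 32) * Real.log m ^ 45 := by ring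
        _ ≤ c₀ * H * Real.log m ^ 45 := by
            have : 3 * P / 32 ≤ H := by linarith
            gcongr
    refine hthr.trans (hm3.trans ?_)
    have e2 : f m ≤ Set.ncard {p : ℕ | m < p ∧ ((p + h : ℕ) : ℝ) < m + (m : ℝ) ^ θ ∧ Follow M a h p} := by
      rw [hf]
      simp only
      rw [← Set.ncard_coe_finset]
      have e3 : ((fun n => n + M * g) '' ((T.filter (fun n => m < n ∧ n ≤ m + H) : Finset ℕ) : Set ℕ)) ⊆
          {p : ℕ | m < p ∧ ((p + h : ℕ) : ℝ) < m + (m : ℝ) ^ θ ∧ Follow M a h p} := by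
        rintro p ⟨n, hn, rfl⟩
        rw [mem_coe, mem_filter, hT, mem_filter] at hn
        obtain ⟨⟨_, _, _, hn3, _⟩, hn4, hn5⟩ := hn
        have hmn : m < n + M * g := by omega
        refine ⟨hmn, ?_, hn3⟩
        have e4 : n + M * g + h ≤ m + H + 2 * (L * M) := by omega
        have e5 : ((n + M * g + h : ℕ) : ℝ) ≤ m + H + 2 * (L * M) := by exact_mod_cast e4
        have e6 : (2 : ℝ) * (L * M) + 2 ≤ P / 16 := by linarith
        linarith
      rw [← Set.ncard_image_of_injective _ (fun x y hxy => Nat.add_right_cancel hxy : Function.Injective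
        (fun n => n + M * g))]
      refine Set.ncard_le_ncard e3 ((Set.finite_Iio (m + ⌈(m : ℝ) ^ θ⌉₊)).subset fun p hp => ?_)
      rw [Set.mem_Iio]
      have e7 : ((p + h : ℕ) : ℝ) < m + (m : ℝ) ^ θ := hp.2.1
      have e8 : (m : ℝ) ^ θ ≤ (⌈(m : ℝ) ^ θ⌉₊ : ℕ) := Nat.le_ceil _
      have e9 : ((p + h : ℕ) : ℝ) < ((m + ⌈(m : ℝ) ^ θ⌉₊ : ℕ) : ℝ) := by push_cast at e7 ⊢; linarith
      have e10 : p + h < m + ⌈(m : ℝ) ^ θ⌉₊ := by exact_mod_cast e9
      omega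
    exact_mod_cast e2
  have hle := Set.ncard_le_ncard hsub hfin
  rw [Set.ncard_coe_finset] at hle
  have hle' : ((I.filter (fun i => t ≤ (f i : ℝ))).card : ℝ) ≤ (Set.ncard {m : ℕ | Z ≤ 2 * m ∧ m < 3 * Z ∧
      c * (m : ℝ) ^ θ / Real.log m ^ 45 ≤
        (Set.ncard {p : ℕ | m < p ∧ ((p + h : ℕ) : ℝ) < m + (m : ℝ) ^ θ ∧
          Follow M a h p} : ℝ)} : ℝ) := by exact_mod_cast hle
  refine le_trans ?_ (hcount.trans hle')
  apply mul_le_mul_of_nonneg_right _ hZ0.le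
  rw [hc]
  refine (min_le_right _ _).trans ?_
  apply div_le_div_of_nonneg_left hc₀.le (by positivity)
  linarith

end Pool.Agent.L5helper4.G2
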